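import Pool.Agent.Helper37.KF.Stmts2
import Pool.Agent.Helper3.NFR.Bits

/-! # KF2 module 19: bits -/

namespace Pool.Agent.Helper25.KF

theorem st_bits2 : Pool.Agent.Helper37.KF2.ST_BITS := Pool.Agent.Helper3.NFR.st_bits

end Pool.Agent.Helper25.KF
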