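import Pool.Agent.Helper90.KOM.Stmts
import Pool.Agent.Helper3.NFR.Int

/-! # KF: basic facts, real matrices -/

namespace Pool.Agent.Helper25.KOM

open Finset MeasureTheory Pool.Agent.Helper90.KOM
open Pool.Agent.Helper3.NFR (ph ps J0 dn)
open scoped Classical

theorem ph_nonneg (x : ℝ) : 0 ≤ ph x := by unfold ph; positivity

theorem ph_le_one (x : ℝ) : ph x ≤ 1 := by
  unfold ph
  rw [div_le_one (by positivity)]
  linarith

theorem ph_neg (x : ℝ) : ph (-x) = ph x := by unfold ph; ring_nf

theorem ph_le_sq (x : ℝ) : ph x ≤ x ^ 2 := by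
  unfold ph
  rw [div_le_iff₀ (by positivity)]
  nlinarith [sq_nonneg x, sq_nonneg (x ^ 2)]

theorem ph_zero : ph 0 = 0 := by simp [ph]

theorem ps_nonneg (x : ℝ) : 0 ≤ ps x := by
  unfold ps
  exact Real.log_nonneg (by nlinarith [sq_nonneg x])

theorem ps_le_sq (x : ℝ) : ps x ≤ x ^ 2 := by
  unfold ps
  have := Real.log_le_sub_one_of_pos (show 0 < 1 + x ^ 2 by positivity)
  linarith

theorem ps_neg (x : ℝ) : ps (-x) = ps x := by unfold ps; ring_nf

theorem ph_cont : Continuous ph := by
  unfold ph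
  exact (continuous_pow 2).div (by fun_prop) (fun x => by positivity)

theorem ps_cont : Continuous ps := by
  unfold ps
  exact Continuous.log (by fun_prop) (fun x => by positivity)

theorem J0_pos : 0 < J0 := Pool.Agent.Helper3.NFR.J0_pos

theorem dn_nonneg (l x : ℝ) (hl : 0 < l) : 0 ≤ dn l x := by
  unfold dn
  have := J0_pos
  positivity

theorem dn_pos (l x : ℝ) (hl : 0 < l) : 0 < dn l x := by
  unfold dn
  have := J0_pos
  positivity

theorem dn_int (l : ℝ) (hl : 0 < l) : Integrable (dn l) := Pool.Agent.Helper3.NFR.dn_int l hl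

theorem dn_one (l : ℝ) (hl : 0 < l) : ∫ x, dn l x = 1 := Pool.Agent.Helper3.NFR.dn_one l hl

variable {V R : Type} [Fintype V] [Fintype R]

omit [Fintype V] in
theorem prod_dn_int (lam : R → ℝ) (hl : ∀ S, 0 < lam S) :
    Integrable (fun y : R → ℝ => ∏ S, dn (lam S) (y S)) :=
  Integrable.fintype_prod (fun S => dn_int _ (hl S))

omit [Fintype V] in
theorem prod_dn_one (lam : R → ℝ) (hl : ∀ S, 0 < lam S) :
    ∫ y : R → ℝ, ∏ S, dn (lam S) (y S) = 1 := by
  rw [integral_fintype_prod_volume_eq_prod]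
  exact Finset.prod_eq_one fun S _ => dn_one _ (hl S)

omit [Fintype V] in
theorem fn_cont (a : V → R → ℝ) (v : V) : Continuous (fn a v) := by
  unfold fn
  fun_prop

omit [Fintype V] in
theorem fn_add (a : V → R → ℝ) (v : V) (y h : R → ℝ) : fn a v (y + h) = fn a v y + fn a v h := by
  unfold fn
  rw [← Finset.sum_add_distrib]
  exact Finset.sum_congr rfl fun S _ => by rw [Pi.add_apply]; ring

omit [Fintype V] in
theorem fn_sub (a : V → R → ℝ) (v : V) (y h : R → ℝ) : fn a v (y - h) = fn a v y - fn a v h := by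
  unfold fn
  rw [← Finset.sum_sub_distrib]
  exact Finset.sum_congr rfl fun S _ => by rw [Pi.sub_apply]; ring

omit [Fintype V] in
theorem fn_neg (a : V → R → ℝ) (v : V) (y : R → ℝ) : fn a v (-y) = -fn a v y := by
  unfold fn
  rw [← Finset.sum_neg_distrib]
  exact Finset.sum_congr rfl fun S _ => by rw [Pi.neg_apply]; ring

omit [Fintype V] in
theorem fn_smul (a : V → R → ℝ) (v : V) (c : ℝ) (y : R → ℝ) :
    fn a v (fun S => c * y S) = c * fn a v y := by
  unfold fn
  rw [Finset.mul_sum]
  exact Finset.sum_congr rfl fun S _ => by ring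

omit [Fintype V] in
theorem xp_le (a : V → R → ℝ) (c : ℝ) (s : V → ℝ) (T E : Finset V) (hc : 0 ≤ c) (y : R → ℝ) :
    xp a c s T E y ≤ c * E.card := by
  unfold xp
  have h1 : ∑ u ∈ E, ph (fn a u y) ≤ E.card := by
    calc _ ≤ ∑ u ∈ E, (1 : ℝ) := Finset.sum_le_sum fun u _ => ph_le_one _
      _ = _ := by simp
  have h2 : 0 ≤ ∑ v ∈ T, ph (s v * fn a v y) := Finset.sum_nonneg fun v _ => ph_nonneg _
  have h3 := mul_le_mul_of_nonneg_left h1 hc
  linarith

omit [Fintype V] in
theorem xp_cont' (a : V → R → ℝ) (c : ℝ) (s : V → ℝ) (T E : Finset V) :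
    Continuous (xp a c s T E) := by
  unfold xp
  have h1 : ∀ u, Continuous (fun y => ph (fn a u y)) := fun u => ph_cont.comp (fn_cont a u)
  have h2 : ∀ v, Continuous (fun y => ph (s v * fn a v y)) := fun v =>
    ph_cont.comp (continuous_const.mul (fn_cont a v))
  exact (continuous_const.mul (continuous_finsetSum _ fun u _ => h1 u)).sub
    (continuous_finsetSum _ fun v _ => h2 v)

omit [Fintype V] in
theorem wt_pos (a : V → R → ℝ) (b c : ℝ) (lam : R → ℝ) (s : V → ℝ) (T E : Finset V)
    (hl : ∀ S, 0 < lam S) (y : R → ℝ) : 0 < wt a b c lam s T E y := by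
  unfold wt
  apply mul_pos _ (Real.exp_pos _)
  apply Finset.prod_pos
  intro S _
  exact dn_pos _ _ (hl S)

/-- module 2 of KF -/
theorem st_int : ST_INT := by
  intro V R _ _ a b c lam s T E hb hc hl
  have hI : Integrable (wt a b c lam s T E) := by
    have h0 : Integrable (fun y : R → ℝ => Real.exp (b * (c * E.card)) * ∏ S, dn (lam S) (y S)) :=
      (prod_dn_int lam hl).const_mul _
    refine h0.mono ?_ ?_
    · have h1 := (prod_dn_int lam hl).aestronglyMeasurable
      have h2 : Continuous (fun y : R → ℝ => Real.exp (b * xp a c s T E y)) :=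
        Real.continuous_exp.comp (continuous_const.mul (xp_cont' a c s T E))
      exact h1.mul h2.aestronglyMeasurable
    · refine Filter.Eventually.of_forall fun y => ?_
      rw [Real.norm_of_nonneg (wt_pos a b c lam s T E hl y).le]
      have h3 : 0 ≤ ∏ S, dn (lam S) (y S) := Finset.prod_nonneg fun S _ => dn_nonneg _ _ (hl S)
      rw [Real.norm_of_nonneg (mul_nonneg (Real.exp_pos _).le h3)]
      unfold wt
      rw [mul_comm]
      apply mul_le_mul_of_nonneg_right _ h3
      apply Real.exp_le_exp.mpr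
      exact mul_le_mul_of_nonneg_left (xp_le a c s T E hc y) hb
  refine ⟨hI, ?_, prod_dn_one lam hl⟩
  unfold ZZ
  rw [integral_pos_iff_support_of_nonneg (fun y => (wt_pos a b c lam s T E hl y).le) hI]
  have : Function.support (wt a b c lam s T E) = Set.univ := by
    ext x
    simp only [Function.mem_support, Set.mem_univ, iff_true]
    exact (wt_pos a b c lam s T E hl x).ne'
  rw [this]
  exact isOpen_univ.measure_pos _ Set.univ_nonempty

end Pool.Agent.Helper25.KOM
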