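import Pool.Agent.Helper25.KF.KBase

/-! # KF modules 7, 8, 11: changes of the partition function -/

namespace Pool.Agent.Helper25.KOM

open Finset MeasureTheory Pool.Agent.Helper90.KOM
open Pool.Agent.Helper3.NFR (ph ps J0 dn)
open scoped Classical

theorem st_cmp : ST_CMP := by
  intro V R _ _ a b c K lam lam' s s' T E T' E' hb hc hl hl' h
  obtain ⟨hI, hZ, -⟩ := st_int V R a b c lam s T E hb hc hl
  obtain ⟨hI', hZ', -⟩ := st_int V R a b c lam' s' T' E' hb hc hl'
  have h1 : ZZ a b c lam' s' T' E' ≤ Real.exp K * ZZ a b c lam s T E := by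
    unfold ZZ
    rw [← integral_const_mul]
    exact integral_mono hI' (hI.const_mul _) h
  have h2 := Real.log_le_log hZ' h1
  rw [Real.log_mul (Real.exp_pos _).ne' hZ.ne', Real.log_exp] at h2
  exact h2

theorem st_up : ST_UP := by
  intro V R _ _ a b c lam s T E hb hc hl
  obtain ⟨hI, hZ, -⟩ := st_int V R a b c lam s T E hb hc hl
  have h1 : ZZ a b c lam s T E ≤ Real.exp (b * c * E.card) * 1 := by
    unfold ZZ
    rw [← prod_dn_one lam hl, ← integral_const_mul]
    refine integral_mono hI ((prod_dn_int lam hl).const_mul _) ?_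
    intro y
    show wt a b c lam s T E y ≤ _
    unfold wt
    have h3 : 0 ≤ ∏ S, dn (lam S) (y S) := Finset.prod_nonneg fun S _ => dn_nonneg _ _ (hl S)
    rw [mul_comm]
    apply mul_le_mul_of_nonneg_right _ h3
    apply Real.exp_le_exp.mpr
    rw [mul_assoc]
    exact mul_le_mul_of_nonneg_left (xp_le a c s T E hc y) hb
  rw [mul_one] at h1
  have h2 := Real.log_le_log hZ h1
  rw [Real.log_exp] at h2
  exact h2

theorem ph_wt_int' {V R : Type} [Fintype V] [Fintype R] (a : V → R → ℝ) (b c : ℝ) (lam : R → ℝ)
    (s : V → ℝ) (T E : Finset V) (hI : Integrable (wt a b c lam s T E)) (u : V) :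
    Integrable (fun y => ph (fn a u y) * wt a b c lam s T E y) := by
  refine hI.mono ((ph_cont.comp (fn_cont a u)).aestronglyMeasurable.mul hI.aestronglyMeasurable) ?_
  refine Filter.Eventually.of_forall fun y => ?_
  rw [norm_mul, Real.norm_of_nonneg (ph_nonneg _)]
  exact mul_le_of_le_one_left (norm_nonneg _) (ph_le_one _)

theorem st_gain : ST_GAIN := by
  intro V R _ _ a b c ε lam s s' T E u hb hb1 hc hε hl huE huT hs1 hs2 hH
  obtain ⟨hI, hZ, -⟩ := st_int V R a b c lam s T E hb hc hl
  obtain ⟨hI', hZ', -⟩ := st_int V R a b c lam s' (insert u T) (E.erase u) hb hc hl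
  have hP := ph_wt_int' a b c lam s T E hI u
  have hpt : ∀ y, wt a b c lam s' (insert u T) (E.erase u) y ≤
      wt a b c lam s T E y - b / 2 * (ph (fn a u y) * wt a b c lam s T E y) := by
    intro y
    have e1 : xp a c s' (insert u T) (E.erase u) y = xp a c s T E y - (1 + c) * ph (fn a u y) := by
      unfold xp
      rw [Finset.sum_insert huT, hs1, one_mul, ← Finset.add_sum_erase E _ huE]
      have : ∑ v ∈ T, ph (s' v * fn a v y) = ∑ v ∈ T, ph (s v * fn a v y) := by
        apply Finset.sum_congr rfl
        intro v hv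
        rw [hs2 v (fun h => huT (h ▸ hv))]
      rw [this]
      ring
    have e2 : wt a b c lam s' (insert u T) (E.erase u) y =
        wt a b c lam s T E y * Real.exp (-(b * (1 + c) * ph (fn a u y))) := by
      unfold wt
      rw [e1, mul_assoc, ← Real.exp_add]
      congr 2
      ring
    rw [e2]
    have hw := (wt_pos a b c lam s T E hl y).le
    have hp0 := ph_nonneg (fn a u y)
    have hp1 := ph_le_one (fn a u y)
    set p := ph (fn a u y)
    have h5 : Real.exp (-(b * (1 + c) * p)) ≤ 1 - b / 2 * p := by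
      have h6 : Real.exp (-(b * (1 + c) * p)) ≤ Real.exp (-(b * p)) := by
        apply Real.exp_le_exp.mpr
        have : 0 ≤ b * c * p := by positivity
        nlinarith
      have h7 : Real.exp (-(b * p)) ≤ 1 - b / 2 * p := by
        have h8 : 0 ≤ b * p := by positivity
        have h9 : b * p ≤ 1 := by nlinarith
        have h10 := Real.add_one_le_exp (b * p)
        rw [Real.exp_neg, inv_le_iff_one_le_mul₀ (Real.exp_pos _)]
        have h11 : 1 ≤ (1 - b / 2 * p) * (b * p + 1) := by nlinarith
        have h12 : (1 - b / 2 * p) * (b * p + 1) ≤ (1 - b / 2 * p) * Real.exp (b * p) :=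
          mul_le_mul_of_nonneg_left h10 (by nlinarith)
        linarith
      exact h6.trans h7
    calc _ ≤ wt a b c lam s T E y * (1 - b / 2 * p) := mul_le_mul_of_nonneg_left h5 hw
      _ = _ := by ring
  have h1 : ZZ a b c lam s' (insert u T) (E.erase u) ≤ (1 - b * ε / 2) * ZZ a b c lam s T E := by
    have h2 : ZZ a b c lam s' (insert u T) (E.erase u) ≤
        ∫ y, (wt a b c lam s T E y - b / 2 * (ph (fn a u y) * wt a b c lam s T E y)) :=
      integral_mono hI' (hI.sub (hP.const_mul _)) hpt
    rw [integral_sub hI (hP.const_mul _), integral_const_mul] at h2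
    unfold Happy at hH
    push Not at hH
    have h3 : b / 2 * (ε * ZZ a b c lam s T E) ≤
        b / 2 * ∫ y, ph (fn a u y) * wt a b c lam s T E y :=
      mul_le_mul_of_nonneg_left hH.le (by linarith)
    have h4 : ∫ y, wt a b c lam s T E y = ZZ a b c lam s T E := rfl
    rw [h4] at h2
    linarith
  have h1' : 0 < 1 - b * ε / 2 := by
    by_contra hcon
    push Not at hcon
    have := mul_nonpos_of_nonpos_of_nonneg hcon hZ.le
    linarith
  have h2 := Real.log_le_log hZ' h1
  rw [Real.log_mul h1'.ne' hZ.ne'] at h2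
  have h3 := Real.log_le_sub_one_of_pos h1'
  linarith

end Pool.Agent.Helper25.KOM
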