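import Pool.Agent.Helper37.KF.Stmts
import Pool.Agent.Helper3.NFR.Rat

/-! # KF module 1: elementary inequalities -/

namespace Pool.Agent.Helper25.KF

open Pool.Agent.Helper37.KF

theorem rat6 (x h : ℝ) : ph (x + h) ≤ 2 * ph x + 2 * h ^ 2 := by
  unfold ph
  have h1 : (0 : ℝ) < 1 + (x + h) ^ 2 := by positivity
  have h3 : (0 : ℝ) < 1 + x ^ 2 := by positivity
  have e : 2 * (x ^ 2 / (1 + x ^ 2)) + 2 * h ^ 2
      = (2 * x ^ 2 + 2 * h ^ 2 * (1 + x ^ 2)) / (1 + x ^ 2) := by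
    field_simp
  rw [e, div_le_div_iff₀ h1 h3]
  nlinarith [sq_nonneg (x - h), sq_nonneg (x * h), sq_nonneg x, sq_nonneg h,
    mul_nonneg (sq_nonneg x) (sq_nonneg (x + h)), mul_nonneg (sq_nonneg h) (sq_nonneg (x + h)),
    mul_nonneg (mul_nonneg (sq_nonneg h) (sq_nonneg x)) (sq_nonneg (x + h))]

theorem st_rat : ST_RAT := by
  obtain ⟨a1, a2, a3, a4, a5⟩ := Pool.Agent.Helper3.NFR.st_rat
  exact ⟨a1, a2, a3, a4, a5, rat6⟩

end Pool.Agent.Helper25.KF
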